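import Mathlib
import Pool.Agent.Lib.helper1.Aldous

set_option autoImplicit false
set_option linter.unusedSectionVars false

open Finset Filter Topology Matrix

namespace Pool.Agent.Results.MP_c130e3_pr.EntropyNoCutoff

section Defs
variable {S : Type} [Fintype S] [DecidableEq S]

/-- Worst-case relative entropy at time `t` of the chain with generator `Q`. -/
noncomputable def ent (Q : Matrix S S ℝ) (π : S → ℝ) (t : ℝ) : ℝ :=
  ⨆ x : S, ∑ y, NormedSpace.exp (t • Q) x y * Real.log (NormedSpace.exp (t • Q) x y / π y)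

/-- Entropy mixing time. -/
noncomputable def tmix (Q : Matrix S S ℝ) (π : S → ℝ) (ε : ℝ) : ℝ :=
  sInf {t : ℝ | 0 ≤ t ∧ ent Q π t ≤ ε}

/-- Variance under `π`. -/
noncomputable def var (π : S → ℝ) (f : S → ℝ) : ℝ := ∑ x, π x * (f x - ∑ y, π y * f y) ^ 2

/-- Dirichlet form. -/
noncomputable def dir (Q : Matrix S S ℝ) (π : S → ℝ) (f : S → ℝ) : ℝ :=
  (1 / 2) * ∑ x, ∑ y, π x * Q x y * (f y - f x) ^ 2

/-- Spectral gap of a reversible chain, in its variational form. -/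
noncomputable def gap (Q : Matrix S S ℝ) (π : S → ℝ) : ℝ :=
  sInf {r : ℝ | ∃ f : S → ℝ, var π f ≠ 0 ∧ r = dir Q π f / var π f}

end Defs

open Pool.Agent.Lib.helper1.Aldous

lemma gap_ge {L : ℕ} (hL : 10 ≤ L) : 1 / 16 ≤ gap (Q L) (π L) := by
  refine le_csInf ?_ ?_
  · refine ⟨_, fun x => (x : ℕ), fun h => ?_, rfl⟩
    have h1 := (Finset.sum_eq_zero_iff_of_nonneg fun x _ =>
      mul_nonneg (π_pos hL x).le (sq_nonneg _)).1 h
    have h2 := h1 0 (mem_univ _)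
    have h3 := h1 (o L) (mem_univ _)
    simp only [mul_eq_zero, (π_pos hL _).ne', false_or, ne_eq, OfNat.ofNat_ne_zero,
      not_false_eq_true, pow_eq_zero_iff, sub_eq_zero] at h2 h3
    rw [← h2, o_val] at h3
    have : (10 : ℝ) ≤ L := by exact_mod_cast hL
    simp at h3
    omega
  · rintro r ⟨f, hf, rfl⟩
    have h0 : 0 ≤ var (π L) f :=
      Finset.sum_nonneg fun x _ => mul_nonneg (π_pos hL x).le (sq_nonneg _)
    have h1 := poincare hL f
    have h2 : var (π L) f ≤ ∑ x, π L x * (f x - f (o L)) ^ 2 := by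
      set μ := ∑ y, π L y * f y with hμ
      have h3 : ∑ x, π L x * (f x - f (o L)) ^ 2 = ∑ x, (π L x * (f x - μ) ^ 2 +
          2 * (μ - f (o L)) * (π L x * f x) + π L x * ((μ - f (o L)) * (-μ - f (o L)))) :=
        Finset.sum_congr rfl fun x _ => by ring
      rw [h3, Finset.sum_add_distrib, Finset.sum_add_distrib, ← Finset.mul_sum, ← hμ,
        ← Finset.sum_mul, π_sum hL, var, ← hμ]
      nlinarith [sq_nonneg (μ - f (o L))]
    rw [le_div_iff₀ (lt_of_le_of_ne h0 (Ne.symm hf)), dir]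
    linarith

lemma ent_zero {L : ℕ} (hL : 10 ≤ L) : (L : ℝ) ≤ ent (Q L) (π L) 0 := by
  refine le_trans ?_ (le_ciSup (f := fun x => ∑ y, NormedSpace.exp ((0 : ℝ) • Q L) x y *
    Real.log (NormedSpace.exp ((0 : ℝ) • Q L) x y / π L y)) (Finite.bddAbove_range _) 0)
  simp only [zero_smul, NormedSpace.exp_zero]
  rw [Finset.sum_eq_single 0 (fun b _ hb => by simp [Matrix.one_apply_ne hb.symm]) (by simp)]
  have h1 := Z_ge hL
  have h2 : a L ^ 1 ≤ a L ^ (2 * L) := pow_le_pow_right₀ (by linarith [a_ge hL]) (by omega)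
  simp only [Matrix.one_apply_eq, one_mul, π, Fin.val_zero, m, zero_le, if_true, pow_zero,
    one_div, inv_inv]
  rw [Real.le_log_iff_exp_le (Z_pos hL)]
  rw [pow_one] at h2
  exact h2.trans h1

lemma two_pow_le (n : ℕ) : (2 : ℝ) ^ n ≤ Real.exp (7 / 10 * n) := by
  rw [mul_comm, Real.exp_nat_mul]
  gcongr
  rw [← Real.log_le_iff_le_exp (by norm_num)]
  linarith [Real.log_two_lt_d9]

lemma facts (ν : ℕ) (h1 : 1 ≤ ν) (hs : (ν : ℝ) ^ 3 * Real.exp (-(ν / 2)) ≤ 1 / 10 ^ 8) :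
    18 * (ν : ℝ) ≤ tmix (Q (10 * ν)) (π (10 * ν)) (1 / 1000) ∧
      ent (Q (10 * ν)) (π (10 * ν)) ((1 - 1 / 6) * tmix (Q (10 * ν)) (π (10 * ν)) (1 / 1000))
        ≤ 4 := by
  have hL : 10 ≤ 10 * ν := by omega
  have hν : (1 : ℝ) ≤ ν := by exact_mod_cast h1
  set s := Real.exp (-((ν : ℝ) / 2)) with hsdef
  have hs0 : 0 < s := Real.exp_pos _
  have hs1 : (ν : ℝ) * s ≤ 1 / 10 ^ 8 :=
    le_trans (by gcongr; exact le_self_pow₀ hν (by norm_num)) hs
  have hs2 : (ν : ℝ) ^ 2 * s ≤ 1 / 10 ^ 8 :=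
    le_trans (by gcongr; norm_num) hs
  have he : Real.exp (-((10 * ν : ℕ) : ℝ)) ≤ s := by
    rw [hsdef]; push_cast; gcongr; linarith
  have he0 := Real.exp_pos (-((10 * ν : ℕ) : ℝ))
  have hcast : ((10 * ν : ℕ) : ℝ) = 10 * ν := by push_cast; ring
  have U2 : ent (Q (10 * ν)) (π (10 * ν)) (50 * ν) ≤ 1 / 1000 := by
    refine ciSup_le fun x => ?_
    have h2 := E_up hL (50 * ν) (by positivity) x (2 * (10 * ν)) 0 le_rfl zero_le_one
      (fun k hk => by simpa using reach2 hL k x (by omega))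
    have h3 : (2 : ℝ) ^ (2 * (10 * ν)) * Real.exp (-(50 * (ν : ℝ) / 2)) ≤ s := by
      refine le_trans (mul_le_mul_of_nonneg_right (two_pow_le _) (Real.exp_pos _).le) ?_
      rw [← Real.exp_add, hsdef]; push_cast; gcongr; linarith
    refine le_trans h2 ?_
    rw [hcast] at he he0 ⊢
    have h4 : 2 * (10 * (ν : ℝ)) * Real.exp (-(10 * ν)) ≤ 20 * (ν * s) := by nlinarith
    have h5 : 3 * (10 * (ν : ℝ)) ^ 2 * (0 + 2 * Real.exp (-(10 * ν)) * (50 * ν) +
        2 ^ (2 * (10 * ν)) * Real.exp (-(50 * (ν : ℝ) / 2))) ≤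
        3 * (10 * (ν : ℝ)) ^ 2 * (0 + 2 * s * (50 * ν) + s) := by gcongr
    nlinarith
  have Lw : ∀ t : ℝ, 0 ≤ t → t ≤ 18 * ν → 1 / 1000 < ent (Q (10 * ν)) (π (10 * ν)) t := by
    intro t ht ht2
    have h2 := E_low hL t ht (19 * ν) (by omega) (by omega) (5 * (ν : ℝ) ^ 2) (by positivity)
    refine lt_of_lt_of_le ?_ (h2.trans (le_ciSup (f := fun x => E (10 * ν) t x)
      (Finite.bddAbove_range _) 0))
    have h3 : Real.exp (5 * (ν : ℝ) ^ 2 - (10 * ν : ℕ) * (2 * (10 * ν : ℕ) - (19 * ν : ℕ))) ≤ s := by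
      rw [hsdef]; push_cast; gcongr; nlinarith
    have h4 : 5 * (ν : ℝ) ^ 2 * (η (10 * ν) / 2 * (1 - t / (19 * ν : ℕ))) =
        1 / 40 * (1 - t / (19 * ν)) := by
      rw [η]; push_cast; field_simp; ring
    have h5 : t / (19 * ν) ≤ 18 / 19 := by rw [div_le_iff₀ (by positivity)]; linarith
    have h6 := mul_le_mul_of_nonneg_left h3 (show (0 : ℝ) ≤ 2 * (10 * ν : ℕ) by positivity)
    rw [h4]
    rw [hcast] at h6 ⊢
    nlinarith
  have T1 : 18 * (ν : ℝ) ≤ tmix (Q (10 * ν)) (π (10 * ν)) (1 / 1000) := by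
    refine le_csInf ⟨50 * ν, by positivity, U2⟩ ?_
    rintro t ⟨ht, hd⟩
    by_contra! h
    linarith [Lw t ht h.le]
  have T2 : tmix (Q (10 * ν)) (π (10 * ν)) (1 / 1000) ≤ 50 * ν :=
    csInf_le ⟨0, fun t ht => ht.1⟩ ⟨by positivity, U2⟩
  refine ⟨T1, ciSup_le fun x => ?_⟩
  set t := (1 - 1 / 6) * tmix (Q (10 * ν)) (π (10 * ν)) (1 / 1000) with ht
  have t1 : 15 * (ν : ℝ) ≤ t := by rw [ht]; linarith
  have t2 : t ≤ 50 * ν := by rw [ht]; linarith
  have t0 : 0 ≤ t := by linarith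
  have hη := η_pos hL
  have hη1 := η_le hL
  have h2 := E_up hL t (by linarith) x (10 * ν + 1) (η (10 * ν)) hη.le (by linarith)
    (fun k hk => by
      have h3 := reach1 hL k x (by split_ifs <;> omega)
      have h4 : 0 ≤ (1 - 2 * β (10 * ν)) ^ k := pow_nonneg (by linarith [β_le hL]) k
      refine le_trans ?_ h3
      split_ifs <;> nlinarith)
  have h3 : (2 : ℝ) ^ (10 * ν + 1) * Real.exp (-(t / 2)) ≤ 2 * s := by
    rw [pow_succ, mul_comm _ (2 : ℝ), mul_assoc]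
    gcongr
    refine le_trans (mul_le_mul_of_nonneg_right (two_pow_le _) (Real.exp_pos _).le) ?_
    rw [← Real.exp_add, hsdef]; push_cast; gcongr; linarith
  refine le_trans h2 ?_
  have h6 : η (10 * ν) = 1 / (10 * (ν : ℝ)) ^ 2 := by rw [η, hcast]
  rw [hcast] at he he0 ⊢
  have h4 : 2 * (10 * (ν : ℝ)) * Real.exp (-(10 * ν)) ≤ 20 * (ν * s) := by nlinarith
  have h5 : 3 * (10 * (ν : ℝ)) ^ 2 * (η (10 * ν) + 2 * Real.exp (-(10 * ν)) * t +
      2 ^ (10 * ν + 1) * Real.exp (-(t / 2))) ≤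
      3 * (10 * (ν : ℝ)) ^ 2 * (η (10 * ν) + 2 * s * (50 * ν) + 2 * s) := by gcongr
  have h7 : 3 * (10 * (ν : ℝ)) ^ 2 * η (10 * ν) = 3 := by rw [h6]; field_simp
  nlinarith

theorem result :
    ∃ (m : ℕ → ℕ) (Q : ∀ n, Matrix (Fin (m n)) (Fin (m n)) ℝ) (π : ∀ n, Fin (m n) → ℝ) (ε : ℝ),
      (∀ n x y, x ≠ y → 0 ≤ Q n x y) ∧ (∀ n x, ∑ y, Q n x y = 0) ∧
      (∀ n x y, Relation.ReflTransGen (fun a b => a ≠ b ∧ 0 < Q n a b) x y) ∧
      (∀ n x, 0 < π n x) ∧ (∀ n, ∑ x, π n x = 1) ∧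
      (∀ n x y, π n x * Q n x y = π n y * Q n y x) ∧ 0 < ε ∧
      Tendsto (fun n => ent (Q n) (π n) 0) atTop atTop ∧
      Tendsto (fun n => gap (Q n) (π n) * tmix (Q n) (π n) ε) atTop atTop ∧
      ∃ δ ∈ Set.Ioo (0 : ℝ) 1, ∃ B : ℝ, ∀ n, ent (Q n) (π n) ((1 - δ) * tmix (Q n) (π n) ε) ≤ B := by
  have h0 : Tendsto (fun n : ℕ => 8 * (((n : ℝ) / 2) ^ 3 * Real.exp (-((n : ℝ) / 2)))) atTop
      (𝓝 (8 * 0)) :=
    ((Real.tendsto_pow_mul_exp_neg_atTop_nhds_zero 3).comp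
      (tendsto_natCast_atTop_atTop.atTop_div_const (by norm_num))).const_mul 8
  obtain ⟨N, hN⟩ := eventually_atTop.1
    (h0.eventually (ge_mem_nhds (show (8 : ℝ) * 0 < 1 / 10 ^ 8 by norm_num)))
  have hf := fun n : ℕ => facts (n + N + 1) (by omega) (by
    have := hN (n + N + 1) (by omega)
    linarith)
  have hL : ∀ n : ℕ, 10 ≤ 10 * (n + N + 1) := fun n => by omega
  have hn : ∀ n : ℕ, (n : ℝ) ≤ ((n + N + 1 : ℕ) : ℝ) := fun n => by exact_mod_cast (by omega)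
  refine ⟨fun n => 2 * (10 * (n + N + 1)) + 1, fun n => Q _, fun n => π _, 1 / 1000, ?_,
    fun n => Q_row, fun n => irred (hL n), fun n => π_pos (hL n), fun n => π_sum (hL n),
    fun n => rev (hL n), by norm_num, ?_, ?_, 1 / 6, ⟨by norm_num, by norm_num⟩, 4,
    fun n => (hf n).2⟩
  · intro n x y h
    have h1 := K_nn (hL n) x y
    rw [K_off _ _ h, ← Q_off _ _ h] at h1
    exact h1
  · refine tendsto_atTop_mono (fun n => le_trans ?_ (ent_zero (hL n))) tendsto_natCast_atTop_atTop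
    exact_mod_cast (by omega)
  · refine tendsto_atTop_mono (fun n => ?_) tendsto_natCast_atTop_atTop
    have h1 := (hf n).1
    have h2 := gap_ge (hL n)
    have h3 := hn n
    have h4 : (0 : ℝ) ≤ n := by positivity
    nlinarith

end Pool.Agent.Results.MP_c130e3_pr.EntropyNoCutoff
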